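import Mathlib
import Pool.Agent.H8.BCov

set_option autoImplicit false

namespace Pool.Agent.Results.MP_d59834_gt.CH

open Set Pool.Agent.H8.BCov

theorem result (h : Cardinal.continuum.{0} = Cardinal.aleph 1) : ∃ X : Set ℝ,
    (Sone (BO X) (BG X) ∧ ¬ Sone (BO (X × X)) (BG (X × X))) ∧
    (Sone (BO X) (BO X) ∧ ¬ Sone (BO (X × X)) (BO (X × X))) ∧
      (Sfin (BO X) (BO X) ∧ ¬ Sfin (BO (X × X)) (BO (X × X))) := by
  obtain ⟨X, -, -, h2, -, V, h3, h4, h5, h6⟩ := main h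
  have := negA h3 h4 h5 h6 (B := BO (X × X)) fun _ h => h.1
  exact ⟨X, ⟨h2, fun h => this h.bo.fin⟩, ⟨h2.bo, fun h => this h.fin⟩, h2.bo.fin, this⟩

end Pool.Agent.Results.MP_d59834_gt.CH
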